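import Pool.Agent.Q110.NeutMat

/-!
# Extending HA-neutral invariant subspaces for quaternion Hamiltonian matrices

Positive answers to Q1 and Q2 of MP_377342_al.
-/

set_option autoImplicit false

open Quaternion Matrix MulOpposite

namespace Pool.Agent.Results.MP_377342_al.NeutralExtension

open Pool.Agent.Q110.NeutMat

variable {n : ℕ}

/-- Right quaternionic subspaces of `ℍ^n`. -/
abbrev Subsp (n : ℕ) := Submodule ℍ[ℝ]ᵐᵒᵖ (Fin n → ℍ[ℝ])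

/-- `M` is `A`-invariant. -/
def Invariant (A : Matrix (Fin n) (Fin n) ℍ[ℝ]) (M : Subsp n) : Prop := ∀ x ∈ M, A *ᵥ x ∈ M

/-- `M` is `G`-neutral. -/
def Neutral (G : Matrix (Fin n) (Fin n) ℍ[ℝ]) (M : Subsp n) : Prop :=
  ∀ x ∈ M, ∀ y ∈ M, star x ⬝ᵥ (G *ᵥ y) = 0

/-- `M` is `G`-nonnegative. -/
def Nonneg (G : Matrix (Fin n) (Fin n) ℍ[ℝ]) (M : Subsp n) : Prop :=
  ∀ x ∈ M, ∃ r : ℝ, 0 ≤ r ∧ star x ⬝ᵥ (G *ᵥ x) = (r : ℍ[ℝ])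

/-- `M` is `G`-nonpositive. -/
def Nonpos (G : Matrix (Fin n) (Fin n) ℍ[ℝ]) (M : Subsp n) : Prop :=
  ∀ x ∈ M, ∃ r : ℝ, r ≤ 0 ∧ star x ⬝ᵥ (G *ᵥ x) = (r : ℍ[ℝ])

/-- `M` is maximal `G`-nonnegative. -/
def MaxNonneg (G : Matrix (Fin n) (Fin n) ℍ[ℝ]) (M : Subsp n) : Prop :=
  Nonneg G M ∧ ∀ M' : Subsp n, M ≤ M' → Nonneg G M' → M' = M

/-- `M` is maximal `G`-nonpositive. -/
def MaxNonpos (G : Matrix (Fin n) (Fin n) ℍ[ℝ]) (M : Subsp n) : Prop :=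
  Nonpos G M ∧ ∀ M' : Subsp n, M ≤ M' → Nonpos G M' → M' = M

/-- `l` is an eigenvalue of the restriction of `A` to `M`: `A x = x l` for some nonzero `x` in `M`. -/
def Eigenvalue (A : Matrix (Fin n) (Fin n) ℍ[ℝ]) (M : Subsp n) (l : ℍ[ℝ]) : Prop :=
  ∃ x ∈ M, x ≠ 0 ∧ A *ᵥ x = op l • x

/-- The first three properties of c-sets. -/
def PreCSet (A : Matrix (Fin n) (Fin n) ℍ[ℝ]) (S : Set ℍ[ℝ]) : Prop :=
  (∀ l ∈ S, Eigenvalue A ⊤ l) ∧ (∀ l ∈ S, l.re ≠ 0) ∧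
    (∀ l ∈ S, ∀ q : ℍ[ℝ], q ≠ 0 → q⁻¹ * l * q ∈ S) ∧ ∀ l ∈ S, -l ∉ S

/-- c-sets. -/
def CSet (A : Matrix (Fin n) (Fin n) ℍ[ℝ]) (S : Set ℍ[ℝ]) : Prop :=
  PreCSet A S ∧ ∀ S', PreCSet A S' → S ⊆ S' → S' = S

theorem eig_conj (A : Matrix (Fin n) (Fin n) ℍ[ℝ]) (l q : ℍ[ℝ]) (hq : q ≠ 0)
    (h : Eigenvalue A ⊤ l) : Eigenvalue A ⊤ (q⁻¹ * l * q) := by
  obtain ⟨x, -, hx0, hx⟩ := h
  refine ⟨op q • x, Submodule.mem_top, ?_, ?_⟩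
  · intro h0
    apply hx0
    have h1 : op q⁻¹ • op q • x = 0 := by rw [h0, smul_zero]
    rw [smul_smul, ← op_mul, mul_inv_cancel₀ hq, op_one, one_smul] at h1
    exact h1
  · have h1 : A *ᵥ (op q • x) = op q • (A *ᵥ x) := by
      funext i
      simp only [Matrix.mulVec, dotProduct, Pi.smul_apply, op_smul_eq_mul, Finset.sum_mul,
        mul_assoc]
    rw [h1, hx, smul_smul, smul_smul, ← op_mul, ← op_mul]
    congr 2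
    rw [← mul_assoc, ← mul_assoc, mul_inv_cancel₀ hq, one_mul]

theorem cset_dichotomy {A : Matrix (Fin n) (Fin n) ℍ[ℝ]} {S : Set ℍ[ℝ]} (hS : CSet A S) (l : ℍ[ℝ])
    (hl : Eigenvalue A ⊤ l) (hre : l.re ≠ 0) (hlS : l ∉ S) : -l ∈ S := by
  by_contra hneg
  obtain ⟨⟨s1, s2, s3, s4⟩, hmax⟩ := hS
  have key : ∀ p : ℍ[ℝ], p ≠ 0 → ∀ a : ℍ[ℝ], a ∈ S → a = p⁻¹ * l * p → False := by
    rintro p hp a ha rfl
    apply hlS
    have := s3 _ ha p⁻¹ (inv_ne_zero hp)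
    rw [inv_inv, ← mul_assoc, ← mul_assoc, mul_inv_cancel₀ hp, one_mul, mul_assoc,
      mul_inv_cancel₀ hp, mul_one] at this
    exact this
  have key' : ∀ p : ℍ[ℝ], p ≠ 0 → ∀ a : ℍ[ℝ], a ∈ S → -a = p⁻¹ * l * p → False := by
    intro p hp a ha h
    apply hneg
    have h1 : a = p⁻¹ * (-l) * p := by
      rw [mul_neg, neg_mul, ← h, neg_neg]
    rw [h1] at ha
    have := s3 _ ha p⁻¹ (inv_ne_zero hp)
    rw [inv_inv, ← mul_assoc, ← mul_assoc, mul_inv_cancel₀ hp, one_mul, mul_assoc,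
      mul_inv_cancel₀ hp, mul_one] at this
    exact this
  have hpre : PreCSet A (S ∪ {a | ∃ p : ℍ[ℝ], p ≠ 0 ∧ a = p⁻¹ * l * p}) := by
    refine ⟨?_, ?_, ?_, ?_⟩
    · rintro a (ha | ⟨p, hp, rfl⟩)
      · exact s1 a ha
      · exact eig_conj A l p hp hl
    · rintro a (ha | ⟨p, hp, rfl⟩)
      · exact s2 a ha
      · rw [re_conj l p hp]
        exact hre
    · rintro a (ha | ⟨p, hp, rfl⟩) q hq
      · exact Or.inl (s3 a ha q hq)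
      · refine Or.inr ⟨p * q, mul_ne_zero hp hq, ?_⟩
        rw [_root_.mul_inv_rev]
        simp only [mul_assoc]
    · rintro a (ha | ⟨p, hp, rfl⟩) (ha' | ⟨q, hq, hq2⟩)
      · exact s4 a ha ha'
      · exact key' q hq a ha hq2
      · exact key' p hp _ ha' (neg_neg _)
      · have h1 := congrArg QuaternionAlgebra.re hq2
        have h2 : (q⁻¹ * l * q).re = l.re := re_conj l q hq
        have h3 : (p⁻¹ * l * p).re = l.re := re_conj l p hp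
        have h4 : (-(p⁻¹ * l * p)).re = -(p⁻¹ * l * p).re := Quaternion.re_neg _
        have h5 : (-(p⁻¹ * l * p)).re = (q⁻¹ * l * q).re := h1
        rw [h4, h2, h3] at h5
        apply hre
        linarith
  have h1 := hmax _ hpre Set.subset_union_left
  apply hlS
  rw [← h1]
  exact Or.inr ⟨1, one_ne_zero, by rw [inv_one, one_mul, mul_one]⟩

theorem form_real {G : Matrix (Fin n) (Fin n) ℍ[ℝ]} (hG : Gᴴ = G) (x : Fin n → ℍ[ℝ]) :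
    star x ⬝ᵥ (G *ᵥ x) = ((star x ⬝ᵥ (G *ᵥ x)).re : ℍ[ℝ]) := by
  have h := form_symm G hG x x
  exact Quaternion.star_eq_self.1 h

theorem nonneg_iff {G : Matrix (Fin n) (Fin n) ℍ[ℝ]} (hG : Gᴴ = G) (M : Subsp n) :
    Nonneg G M ↔ ∀ x ∈ M, 0 ≤ (star x ⬝ᵥ (G *ᵥ x)).re := by
  refine forall₂_congr fun x _ => ⟨?_, fun h => ⟨_, h, form_real hG x⟩⟩
  rintro ⟨r, hr, h⟩
  rw [h, Quaternion.re_coe]
  exact hr

theorem nonpos_iff {G : Matrix (Fin n) (Fin n) ℍ[ℝ]} (hG : Gᴴ = G) (M : Subsp n) :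
    Nonpos G M ↔ ∀ x ∈ M, 0 ≤ (star x ⬝ᵥ ((-G) *ᵥ x)).re := by
  refine forall₂_congr fun x _ => ?_
  rw [Matrix.neg_mulVec, dotProduct_neg, Quaternion.re_neg]
  constructor
  · rintro ⟨r, hr, h⟩
    rw [h, Quaternion.re_coe]
    linarith
  · intro h
    exact ⟨_, by linarith, form_real hG x⟩

/-- The common part for both signs. -/
theorem extend (A G : Matrix (Fin n) (Fin n) ℍ[ℝ]) (hG : Gᴴ = G) (hAG : Aᴴ * G = -(G * A))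
    (hker : ∀ x : Fin n → ℍ[ℝ], G *ᵥ x = 0 → A *ᵥ x = 0) (N : Subsp n) (hN : Invariant A N)
    (hNn : ∀ x ∈ N, 0 ≤ (star x ⬝ᵥ (G *ᵥ x)).re) :
    (∃ L : Subsp n, N ≤ L ∧ Invariant A L ∧ (∀ x ∈ L, 0 ≤ (star x ⬝ᵥ (G *ᵥ x)).re) ∧
      ∀ L' : Subsp n, L ≤ L' → (∀ x ∈ L', 0 ≤ (star x ⬝ᵥ (G *ᵥ x)).re) → L' = L) ∧
    ∀ S : Set ℍ[ℝ], CSet A S → (∀ l, Eigenvalue A N l → l.re ≠ 0 → l ∈ S) →
      ∃ L : Subsp n, N ≤ L ∧ Invariant A L ∧ (∀ x ∈ L, 0 ≤ (star x ⬝ᵥ (G *ᵥ x)).re) ∧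
      (∀ L' : Subsp n, L ≤ L' → (∀ x ∈ L', 0 ≤ (star x ⬝ᵥ (G *ᵥ x)).re) → L' = L) ∧
      ∀ l, (Eigenvalue A L l ∧ l.re ≠ 0) ↔ l ∈ S := by
  constructor
  · obtain ⟨L, h1, h2, h3, h4, -, -⟩ := concrete A G hG hAG hker Set.univ
      (fun _ _ _ _ => Set.mem_univ _) (Set.mem_univ _) (fun l _ hl => (hl (Set.mem_univ _)).elim)
      N hN hNn (fun _ _ => Set.mem_univ _)
    exact ⟨L, h1, h2, h3, fun L' hL' hn => le_antisymm (h4 L' hL' hn) hL'⟩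
  · intro S hS hSN
    obtain ⟨L, h1, h2, h3, h4, h5, h6⟩ := concrete A G hG hAG hker {l | l ∈ S ∨ l.re = 0}
      (by
        rintro l (hl | hl) q hq
        · exact Or.inl (hS.1.2.2.1 l hl q hq)
        · exact Or.inr (by rw [re_conj l q hq, hl]))
      (Or.inr rfl)
      (by
        rintro l ⟨x, hx0, hx⟩ hl
        have hre : l.re ≠ 0 := fun h => hl (Or.inr h)
        exact ⟨hre, Or.inl (cset_dichotomy hS l ⟨x, Submodule.mem_top, hx0, hx⟩ hre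
          fun h => hl (Or.inl h))⟩)
      N hN hNn
      (by
        rintro l hl
        by_cases hre : l.re = 0
        · exact Or.inr hre
        · exact Or.inl (hSN l hl hre))
    refine ⟨L, h1, h2, h3, fun L' hL' hn => le_antisymm (h4 L' hL' hn) hL', fun l => ⟨?_, ?_⟩⟩
    · rintro ⟨hl, hre⟩
      rcases h5 l hl with h | h
      · exact h
      · exact (hre h).elim
    · intro hl
      have hre := hS.1.2.1 l hl
      obtain ⟨x, -, hx0, hx⟩ := hS.1.1 l hl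
      refine ⟨h6 l (Or.inl hl) ⟨x, hx0, hx⟩ hre ?_, hre⟩
      rintro (h | h)
      · exact hS.1.2.2.2 l hl h
      · rw [Quaternion.re_neg, neg_eq_zero] at h
        exact hre h

/-- **Q1 and Q2 are true.** -/
theorem result (n : ℕ) (H A : Matrix (Fin n) (Fin n) ℍ[ℝ]) (hu : IsUnit H) (hH : Hᴴ = -H)
    (hA : H * A = -(Aᴴ * H)) (N : Subsp n) (hN : Invariant A N) (hNn : Neutral (H * A) N) :
    ((∃ L : Subsp n, N ≤ L ∧ Invariant A L ∧ MaxNonneg (H * A) L) ∧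
      (∃ L : Subsp n, N ≤ L ∧ Invariant A L ∧ MaxNonpos (H * A) L)) ∧
    ∀ S : Set ℍ[ℝ], CSet A S → (∀ l, Eigenvalue A N l → l.re ≠ 0 → l ∈ S) →
      (∃ L : Subsp n, N ≤ L ∧ Invariant A L ∧ MaxNonneg (H * A) L ∧
        ∀ l, (Eigenvalue A L l ∧ l.re ≠ 0) ↔ l ∈ S) ∧
      (∃ L : Subsp n, N ≤ L ∧ Invariant A L ∧ MaxNonpos (H * A) L ∧
        ∀ l, (Eigenvalue A L l ∧ l.re ≠ 0) ↔ l ∈ S) := by
  have hG : (H * A)ᴴ = H * A := by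
    rw [Matrix.conjTranspose_mul, hH, Matrix.mul_neg, ← hA]
  have hG' : (-(H * A))ᴴ = -(H * A) := by
    rw [Matrix.conjTranspose_neg, hG]
  have hAG : Aᴴ * (H * A) = -(H * A * A) := by
    rw [← Matrix.mul_assoc, ← neg_eq_iff_eq_neg.2 hA]
    simp
  have hAG' : Aᴴ * (-(H * A)) = -(-(H * A) * A) := by
    rw [Matrix.mul_neg, hAG, Matrix.neg_mul]
  have hker : ∀ x : Fin n → ℍ[ℝ], (H * A) *ᵥ x = 0 → A *ᵥ x = 0 := by
    intro x hx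
    obtain ⟨u, hu⟩ := hu
    have h1 : (↑u⁻¹ : Matrix (Fin n) (Fin n) ℍ[ℝ]) *ᵥ ((H * A) *ᵥ x) = 0 := by
      rw [hx, Matrix.mulVec_zero]
    rw [Matrix.mulVec_mulVec, ← Matrix.mul_assoc, ← hu, Units.inv_mul, Matrix.one_mul] at h1
    exact h1
  have hker' : ∀ x : Fin n → ℍ[ℝ], (-(H * A)) *ᵥ x = 0 → A *ᵥ x = 0 := by
    intro x hx
    rw [Matrix.neg_mulVec, neg_eq_zero] at hx
    exact hker x hx
  have hn : ∀ x ∈ N, 0 ≤ (star x ⬝ᵥ ((H * A) *ᵥ x)).re := by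
    intro x hx
    rw [hNn x hx x hx, Quaternion.re_zero]
  have hn' : ∀ x ∈ N, 0 ≤ (star x ⬝ᵥ ((-(H * A)) *ᵥ x)).re := by
    intro x hx
    rw [Matrix.neg_mulVec, dotProduct_neg, hNn x hx x hx, neg_zero, Quaternion.re_zero]
  have key1 : ∀ L : Subsp n, ((∀ x ∈ L, 0 ≤ (star x ⬝ᵥ ((H * A) *ᵥ x)).re) ∧
      ∀ L' : Subsp n, L ≤ L' → (∀ x ∈ L', 0 ≤ (star x ⬝ᵥ ((H * A) *ᵥ x)).re) → L' = L) →
      MaxNonneg (H * A) L := by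
    rintro L ⟨h1, h2⟩
    exact ⟨(nonneg_iff hG L).2 h1, fun L' hL' hn => h2 L' hL' ((nonneg_iff hG L').1 hn)⟩
  have key2 : ∀ L : Subsp n, ((∀ x ∈ L, 0 ≤ (star x ⬝ᵥ ((-(H * A)) *ᵥ x)).re) ∧
      ∀ L' : Subsp n, L ≤ L' → (∀ x ∈ L', 0 ≤ (star x ⬝ᵥ ((-(H * A)) *ᵥ x)).re) → L' = L) →
      MaxNonpos (H * A) L := by
    rintro L ⟨h1, h2⟩
    exact ⟨(nonpos_iff hG L).2 h1, fun L' hL' hn => h2 L' hL' ((nonpos_iff hG L').1 hn)⟩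
  obtain ⟨⟨L1, a1, a2, a3, a4⟩, a5⟩ := extend A (H * A) hG hAG hker N hN hn
  obtain ⟨⟨L2, b1, b2, b3, b4⟩, b5⟩ := extend A (-(H * A)) hG' hAG' hker' N hN hn'
  refine ⟨⟨⟨L1, a1, a2, key1 L1 ⟨a3, a4⟩⟩, ⟨L2, b1, b2, key2 L2 ⟨b3, b4⟩⟩⟩, fun S hS hSN => ?_⟩
  obtain ⟨L3, c1, c2, c3, c4, c5⟩ := a5 S hS hSN
  obtain ⟨L4, d1, d2, d3, d4, d5⟩ := b5 S hS hSN
  exact ⟨⟨L3, c1, c2, key1 L3 ⟨c3, c4⟩, c5⟩, ⟨L4, d1, d2, key2 L4 ⟨d3, d4⟩, d5⟩⟩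

end Pool.Agent.Results.MP_377342_al.NeutralExtension
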